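import Mathlib

/-!
# A non-meager filter whose coideal is not homeomorphic to its square (in ZFC)

The filter is the intersection of two ultrafilters living on the even and on the odd numbers.
They are built by a recursion of length continuum that keeps an independent family alive and
kills all continuous maps defined on residual sets.
-/

open Set Cardinal

namespace Pool.Agent.Results.MP_2ea626_lc.CoidealNotSquare

/-- The coideal of a filter on `ω`: all sets meeting every member of the filter. -/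
def coideal (F : Filter ℕ) : Set (Set ℕ) := {A | ∀ B ∈ F, (A ∩ B).Nonempty}

/-- The copy of a family of subsets of `ω` in the Cantor space. -/
def copy (S : Set (Set ℕ)) : Set (ℕ → Bool) := {x | {n | x n = true} ∈ S}

/-! ### the block lemma -/

section blocks

variable {α : Type} [TopologicalSpace α] [DiscreteTopology α] [Finite α] [Nonempty α]

omit [DiscreteTopology α] [Finite α] [Nonempty α] in
lemma exists_cyl {W : Set (ℕ → α)} (hW : IsOpen W) {q : ℕ → α} (hq : q ∈ W) :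
    ∃ n, ∀ q' : ℕ → α, (∀ m < n, q' m = q m) → q' ∈ W := by
  obtain ⟨J, u, hu1, hu2⟩ := isOpen_pi_iff.mp hW q hq
  refine ⟨J.sup id + 1, fun q' h => hu2 ?_⟩
  intro m hm
  have h1 : m < J.sup id + 1 := Nat.lt_succ_of_le (Finset.le_sup (f := id) hm)
  rw [h m h1]
  exact (hu1 m hm).2

omit [Finite α] [Nonempty α] in
lemma cyl_open (q : ℕ → α) (n : ℕ) : IsOpen {q' : ℕ → α | ∀ m < n, q' m = q m} := by
  have : {q' : ℕ → α | ∀ m < n, q' m = q m} = ⋂ m ∈ Finset.range n, {q' | q' m = q m} := by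
    ext q'
    simp
  rw [this]
  refine isOpen_biInter_finset (fun m _ => ?_)
  exact (isOpen_discrete ({q m} : Set α)).preimage (continuous_apply (A := fun _ => α) m)

lemma one_block {W : Set (ℕ → α)} (hW : IsOpen W) (hWd : Dense W) (n : ℕ) :
    ∃ n', n < n' ∧ ∃ s : ℕ → α, ∀ q : ℕ → α, (∀ m, n ≤ m → m < n' → q m = s m) → q ∈ W := by
  classical
  have key : ∀ T : Finset (Fin n → α), ∃ n', n < n' ∧ ∃ s : ℕ → α, ∀ q : ℕ → α,
      (fun i : Fin n => q i) ∈ T → (∀ m, n ≤ m → m < n' → q m = s m) → q ∈ W := by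
    intro T
    induction T using Finset.induction_on with
    | empty => exact ⟨n + 1, by omega, fun _ => Classical.arbitrary α, fun q h => by simp at h⟩
    | insert t T _ ih =>
      obtain ⟨n', hn', s, hs⟩ := ih
      let q₀ : ℕ → α := fun m => if h : m < n then t ⟨m, h⟩ else s m
      obtain ⟨q₁, hq₁, hq₁'⟩ := hWd.inter_open_nonempty _ (cyl_open q₀ n') ⟨q₀, fun _ _ => rfl⟩
      obtain ⟨n'', hn''⟩ := exists_cyl hW hq₁'
      refine ⟨max n' n'', lt_of_lt_of_le hn' (le_max_left _ _), q₁, ?_⟩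
      intro q hqT hq
      rcases Finset.mem_insert.1 hqT with h | h
      · apply hn''
        intro m hm
        by_cases hmn : m < n
        · have h1 : q m = t ⟨m, hmn⟩ := congrFun h ⟨m, hmn⟩
          have h2 : q₁ m = q₀ m := hq₁ m (hmn.trans hn')
          rw [h1, h2]
          simp only [q₀]
          rw [dif_pos hmn]
        · exact hq m (not_lt.1 hmn) (lt_of_lt_of_le hm (le_max_right _ _))
      · apply hs q h
        intro m hm hm'
        rw [hq m hm (lt_of_lt_of_le hm' (le_max_left _ _)), hq₁ m hm']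
        simp only [q₀]
        rw [dif_neg (by omega)]
  have := Fintype.ofFinite α
  obtain ⟨n', hn', s, hs⟩ := key Finset.univ
  exact ⟨n', hn', s, fun q hq => hs q (Finset.mem_univ _) hq⟩

/-- Dense open sets are controlled by a partition of `ω` into finite blocks (the fibres
of `β`) and a pattern `u`. -/
lemma block (W : ℕ → Set (ℕ → α)) (hW : ∀ n, IsOpen (W n)) (hWd : ∀ n, Dense (W n)) :
    ∃ (β : ℕ → ℕ) (u : ℕ → α), ∀ q : ℕ → α,
      (∀ N, ∃ j, N ≤ j ∧ ∀ m, β m = j → q m = u m) → ∀ n, q ∈ W n := by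
  classical
  have hstep : ∀ j n : ℕ, ∃ n', n < n' ∧ ∃ s : ℕ → α, ∀ q : ℕ → α,
      (∀ m, n ≤ m → m < n' → q m = s m) → ∀ i ≤ j, q ∈ W i := by
    intro j n
    have ho : IsOpen (⋂ i ∈ Finset.range (j + 1), W i) :=
      isOpen_biInter_finset (fun i _ => hW i)
    have hd : ∀ j, Dense (⋂ i ∈ Finset.range (j + 1), W i) := by
      intro j
      induction j with
      | zero => simpa using hWd 0
      | succ j ih =>
        have : (⋂ i ∈ Finset.range (j + 1 + 1), W i) =
            (⋂ i ∈ Finset.range (j + 1), W i) ∩ W (j + 1) := by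
          ext x
          simp only [Finset.mem_range, mem_iInter, mem_inter_iff]
          constructor
          · intro h
            exact ⟨fun i hi => h i (by omega), h _ (by omega)⟩
          · rintro ⟨h1, h2⟩ i hi
            rcases Nat.lt_or_ge i (j + 1) with h | h
            · exact h1 i h
            · obtain rfl : i = j + 1 := by omega
              exact h2
        rw [this]
        exact ih.inter_of_isOpen_right (hWd _) (hW _)
    obtain ⟨n', hn', s, hs⟩ := one_block ho (hd j) n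
    refine ⟨n', hn', s, fun q hq i hi => ?_⟩
    have := hs q hq
    simp only [Finset.mem_range, mem_iInter] at this
    exact this i (by omega)
  choose nx hnx s hs using hstep
  let a : ℕ → ℕ := fun j => Nat.rec (motive := fun _ => ℕ) 0 (fun j n => nx j n) j
  have ha : ∀ j, a (j + 1) = nx j (a j) := fun j => rfl
  have hmono : StrictMono a := strictMono_nat_of_lt_succ (fun j => by rw [ha]; exact hnx j _)
  let β : ℕ → ℕ := fun m => Nat.findGreatest (fun j : ℕ => a j ≤ m) m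
  have hβ1 : ∀ m, a (β m) ≤ m := fun m =>
    Nat.findGreatest_spec (P := fun j : ℕ => a j ≤ m) (Nat.zero_le m) (Nat.zero_le m)
  have hβ2 : ∀ m j, a j ≤ m → j ≤ β m := by
    intro m j h
    exact Nat.le_findGreatest ((hmono.id_le j).trans h) h
  refine ⟨β, fun m => s (β m) (a (β m)) m, ?_⟩
  intro q hq n
  obtain ⟨j, hj, hj'⟩ := hq n
  refine hs j (a j) q ?_ n hj
  intro m hm hm'
  have h1 : j ≤ β m := hβ2 m j hm
  have h2 : β m = j := by
    by_contra hne
    have h3 : j + 1 ≤ β m := by omega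
    have h4 := hmono.monotone h3
    have h5 := hβ1 m
    rw [ha] at h4
    omega
  rw [hj' m h2]
  show s (β m) (a (β m)) m = _
  rw [h2]

end blocks

/-! ### an independent family -/

/-- index set of the independent family -/
abbrev R : Type := ℕ → Bool

abbrev K : Type := Σ n : ℕ, Set (Fin n → Bool)

instance : Countable K := inferInstance

instance : Infinite K := Infinite.of_injective (fun n : ℕ => (⟨n, ∅⟩ : K)) (fun a b h => by
  have := congrArg Sigma.fst h
  exact this)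

noncomputable def eK : ℕ ≃ K := Classical.choice (nonempty_equiv_of_countable)

/-- the independent family -/
def Ai (r : R) : Set ℕ := {m | (fun i : Fin (eK m).1 => r i) ∈ (eK m).2}

/-- signed version -/
def As (r : R) (b : Bool) : Set ℕ := if b then Ai r else (Ai r)ᶜ

lemma independent (s : Finset R) (ε : R → Bool) (B : Set ℕ) (hB : B ∈ Filter.cofinite) :
    (B ∩ ⋂ i ∈ s, As i (ε i)).Nonempty := by
  classical
  -- a level separating the members of `s`
  have hsep : ∃ N, ∀ n, N ≤ n → ∀ r ∈ s, ∀ r' ∈ s, (∀ i < n, r i = r' i) → r = r' := by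
    have : ∀ r r' : R, ∃ N, ∀ n, N ≤ n → (∀ i < n, r i = r' i) → r = r' := by
      intro r r'
      by_cases h : r = r'
      · exact ⟨0, fun _ _ _ => h⟩
      · obtain ⟨i, hi⟩ : ∃ i, r i ≠ r' i := by
          by_contra hcon
          push Not at hcon
          exact h (funext hcon)
        exact ⟨i + 1, fun n hn h' => absurd (h' i (by omega)) hi⟩
    choose N hN using this
    refine ⟨s.sup (fun r => s.sup (fun r' => N r r')), fun n hn r hr r' hr' h => ?_⟩
    refine hN r r' n (le_trans ?_ hn) h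
    exact (Finset.le_sup (f := fun r' => N r r') hr').trans
      (Finset.le_sup (f := fun r => s.sup (fun r' => N r r')) hr)
  obtain ⟨N, hN⟩ := hsep
  let pt : ℕ → K := fun n => ⟨n, {t | ∃ r ∈ s, ε r = true ∧ ∀ i : Fin n, t i = r i}⟩
  have hpt : Function.Injective (fun n => eK.symm (pt n)) := by
    intro a b h
    have := eK.symm.injective h
    exact congrArg Sigma.fst this
  have hinf : ((fun n => eK.symm (pt n)) '' Ici N).Infinite :=
    (Set.Ici_infinite N).image hpt.injOn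
  have hBf : (Bᶜ).Finite := hB
  obtain ⟨m, ⟨n, hn, rfl⟩, hm⟩ := hinf.exists_notMem_finite hBf
  refine ⟨_, not_not.1 hm, ?_⟩
  simp only [mem_iInter]
  intro r hr
  have hmem : eK.symm (pt n) ∈ Ai r ↔ ε r = true := by
    unfold Ai
    rw [Set.mem_ofPred_eq, Equiv.apply_symm_apply]
    constructor
    · rintro ⟨r', hr', h1, h2⟩
      have : r = r' := hN n hn r hr r' hr' (fun i hi => h2 ⟨i, hi⟩)
      rw [this]; exact h1
    · intro h
      exact ⟨r, hr, h, fun i => rfl⟩
  unfold As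
  cases hε : ε r with
  | true => simp only [if_true]; exact hmem.2 hε
  | false =>
    simp only [Bool.false_eq_true, if_false]
    intro h
    rw [hmem.1 h] at hε
    cases hε

/-! ### filters keeping the family independent -/

/-- the members outside of `D` are independent modulo `f` -/
def Ind (f : Filter ℕ) (D : Set R) : Prop :=
  ∀ (s : Finset R) (ε : R → Bool), (∀ i ∈ s, i ∉ D) → ∀ B ∈ f, (B ∩ ⋂ i ∈ s, As i (ε i)).Nonempty

lemma Ind.neBot {f : Filter ℕ} {D : Set R} (h : Ind f D) : f.NeBot := by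
  refine ⟨fun hbot => ?_⟩
  obtain ⟨x, hx, -⟩ := h ∅ (fun _ => true) (by simp) ∅ (by rw [hbot]; exact Filter.mem_bot)
  exact hx

lemma Ind.mono {f : Filter ℕ} {D D' : Set R} (h : Ind f D) (hD : D ⊆ D') : Ind f D' :=
  fun s ε hs B hB => h s ε (fun i hi hi' => hs i hi (hD hi')) B hB

/-- adding a finite Boolean combination -/
lemma Ind.add {f : Filter ℕ} {D : Set R} (h : Ind f D) (s : Finset R) (ε : R → Bool)
    (hs : ∀ i ∈ s, i ∉ D) : Ind (f ⊓ Filter.principal (⋂ i ∈ s, As i (ε i))) (D ∪ s) := by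
  classical
  intro s' ε' hs' B hB
  rw [Filter.mem_inf_principal] at hB
  obtain ⟨x, hx1, hx2⟩ := h (s ∪ s') (fun i => if i ∈ s then ε i else ε' i) (by
    intro i hi
    rcases Finset.mem_union.1 hi with h' | h'
    · exact hs i h'
    · exact fun h'' => hs' i h' (Or.inl h'')) _ hB
  simp only [mem_iInter] at hx2
  have hxs : x ∈ ⋂ i ∈ s, As i (ε i) := by
    simp only [mem_iInter]
    intro i hi
    have := hx2 i (Finset.mem_union_left _ hi)
    rwa [if_pos hi] at this
  refine ⟨x, hx1 hxs, ?_⟩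
  simp only [mem_iInter]
  intro i hi
  have := hx2 i (Finset.mem_union_right _ hi)
  rwa [if_neg (fun h' => hs' i hi (Or.inr (Finset.mem_coe.2 h')))] at this

lemma Ind.add_one {f : Filter ℕ} {D : Set R} (h : Ind f D) {i : R} (hi : i ∉ D) (b : Bool) :
    Ind (f ⊓ Filter.principal (As i b)) (D ∪ {i}) := by
  have := h.add {i} (fun _ => b) (by simpa using hi)
  simpa using this

/-- deciding a set -/
lemma Ind.decide {f : Filter ℕ} {D : Set R} (h : Ind f D) (E : Set ℕ) :
    ∃ f' ≤ f, ∃ N : Finset R, Ind f' (D ∪ N) ∧ (E ∈ f' ∨ Eᶜ ∈ f') := by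
  classical
  by_cases hE : Ind (f ⊓ Filter.principal E) D
  · exact ⟨_, inf_le_left, ∅, hE.mono subset_union_left,
      Or.inl (Filter.mem_inf_of_right (Filter.mem_principal_self E))⟩
  · unfold Ind at hE
    push Not at hE
    obtain ⟨s, ε, hs, B, hB, hempty⟩ := hE
    rw [Filter.mem_inf_principal] at hB
    refine ⟨_, inf_le_left, s, h.add s ε hs, Or.inr ?_⟩
    rw [Filter.mem_inf_principal]
    filter_upwards [hB] with x hx hx2 hxE
    have : x ∈ B ∩ ⋂ i ∈ s, As i (ε i) := ⟨hx hxE, hx2⟩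
    rw [hempty] at this
    exact this

/-! ### the one-step kill -/

/-- positivity of a set `x ⊆ ω` with respect to two ultrafilters, one living on the even
numbers, one on the odd numbers -/
def Pos (U₁ U₂ : Filter ℕ) (x : ℕ → Bool) : Prop :=
  {a | x (2 * a) = true} ∈ U₁ ∨ {a | x (2 * a + 1) = true} ∈ U₂

/-- the map `k` is refuted at a point of `G` by all ultrafilters extending `f₁, f₂` -/
def Kill (G : Set (ℕ → Bool × Bool)) (k : (ℕ → Bool × Bool) → (ℕ → Bool)) (f₁ f₂ : Filter ℕ) :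
    Prop :=
  ∃ p ∈ G, ∀ U₁ U₂ : Ultrafilter ℕ, (U₁ : Filter ℕ) ≤ f₁ → (U₂ : Filter ℕ) ≤ f₂ →
    ¬ ((Pos U₁ U₂ (fun n => (p n).1) ∧ Pos U₁ U₂ (fun n => (p n).2)) ↔ Pos U₁ U₂ (k p))

lemma Kill.mono {G : Set (ℕ → Bool × Bool)} {k : (ℕ → Bool × Bool) → (ℕ → Bool)}
    {f₁ f₂ f₁' f₂' : Filter ℕ} (h : Kill G k f₁ f₂) (h1 : f₁' ≤ f₁) (h2 : f₂' ≤ f₂) :
    Kill G k f₁' f₂' := by
  obtain ⟨p, hp, h⟩ := h
  exact ⟨p, hp, fun U₁ U₂ hU1 hU2 => h U₁ U₂ (hU1.trans h1) (hU2.trans h2)⟩

/-- deciding three sets with pairwise disjoint complements: two of them are in -/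
lemma decide_three {f : Filter ℕ} {D : Set R} (h : Ind f D) (E : ℕ → Set ℕ)
    (hE : ∀ r r', r ≠ r' → ∀ x, x ∈ E r ∨ x ∈ E r') :
    ∃ f' ≤ f, ∃ N : Finset R, Ind f' (D ∪ N) ∧ ∃ r₀, ∀ r < 3, r ≠ r₀ → E r ∈ f' := by
  classical
  obtain ⟨f1, hf1, N1, hI1, hd1⟩ := h.decide (E 0)
  obtain ⟨f2, hf2, N2, hI2, hd2⟩ := hI1.decide (E 1)
  obtain ⟨f3, hf3, N3, hI3, hd3⟩ := hI2.decide (E 2)
  have hne := hI3.neBot
  have hd : ∀ r < 3, E r ∈ f3 ∨ (E r)ᶜ ∈ f3 := by
    intro r hr
    interval_cases r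
    · exact hd1.imp (fun h => hf3 (hf2 h)) (fun h => hf3 (hf2 h))
    · exact hd2.imp (fun h => hf3 h) (fun h => hf3 h)
    · exact hd3
  refine ⟨f3, hf3.trans (hf2.trans hf1), N1 ∪ N2 ∪ N3, hI3.mono ?_, ?_⟩
  · intro x hx
    simp only [mem_union, Finset.coe_union] at hx ⊢
    tauto
  · by_cases hc : ∃ r < 3, E r ∉ f3
    · obtain ⟨r₀, hr₀, hnot⟩ := hc
      have h0 : (E r₀)ᶜ ∈ f3 := (hd r₀ hr₀).resolve_left hnot
      refine ⟨r₀, fun r hr hne' => ?_⟩
      rcases hd r hr with h | h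
      · exact h
      · exfalso
        have : (E r₀)ᶜ ∩ (E r)ᶜ ∈ f3 := Filter.inter_mem h0 h
        have hemp : (E r₀)ᶜ ∩ (E r)ᶜ = ∅ := by
          ext x
          simp only [mem_inter_iff, mem_compl_iff, mem_empty_iff_false, iff_false, not_and, not_not]
          intro hx
          exact (hE r₀ r hne'.symm x).resolve_left hx
        rw [hemp] at this
        exact Filter.empty_notMem f3 this
    · push Not at hc
      exact ⟨3, fun r hr _ => hc r hr⟩

lemma step {f₁ f₂ : Filter ℕ} {D : Set R} (h1 : Ind f₁ D) (h2 : Ind f₂ D) (hD : Dᶜ.Infinite)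
    (W : ℕ → Set (ℕ → Bool × Bool)) (hW : ∀ n, IsOpen (W n)) (hWd : ∀ n, Dense (W n))
    (k : (ℕ → Bool × Bool) → (ℕ → Bool)) :
    ∃ f₁' ≤ f₁, ∃ f₂' ≤ f₂, ∃ N : Finset R, Ind f₁' (D ∪ N) ∧ Ind f₂' (D ∪ N) ∧
      Kill {p | ∀ n, p ∈ W n} k f₁' f₂' := by
  classical
  obtain ⟨β, u, hβ⟩ := block W hW hWd
  -- choose the residue class of blocks carrying the pattern
  have hdisj : ∀ (g : ℕ → ℕ) (r r' : ℕ), r ≠ r' → ∀ x,
      x ∈ {a | β (g a) % 3 ≠ r} ∨ x ∈ {a | β (g a) % 3 ≠ r'} := by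
    intro g r r' hne x
    by_cases h : β (g x) % 3 = r
    · right
      rw [Set.mem_ofPred_eq, h]
      exact hne
    · left; exact h
  obtain ⟨g₁, hg₁, N₁, hI₁, r₁, hr₁⟩ := decide_three h1 (fun r => {a | β (2 * a) % 3 ≠ r})
    (hdisj (fun a => 2 * a))
  obtain ⟨g₂, hg₂, N₂, hI₂, r₂, hr₂⟩ := decide_three h2 (fun r => {a | β (2 * a + 1) % 3 ≠ r})
    (hdisj (fun a => 2 * a + 1))
  obtain ⟨r, hr3, hrr₁, hrr₂⟩ : ∃ r < 3, r ≠ r₁ ∧ r ≠ r₂ := by
    by_cases a0 : 0 ≠ r₁ ∧ 0 ≠ r₂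
    · exact ⟨0, by omega, a0⟩
    · by_cases a1 : 1 ≠ r₁ ∧ 1 ≠ r₂
      · exact ⟨1, by omega, a1⟩
      · exact ⟨2, by omega, by omega, by omega⟩
  have hE₁ : {a | β (2 * a) % 3 ≠ r} ∈ g₁ := hr₁ r hr3 hrr₁
  have hE₂ : {a | β (2 * a + 1) % 3 ≠ r} ∈ g₂ := hr₂ r hr3 hrr₂
  -- a fresh index
  obtain ⟨i, hiD, hiN⟩ : ∃ i, i ∈ Dᶜ ∧ i ∉ N₁ ∪ N₂ := by
    obtain ⟨i, hi, hi'⟩ := hD.exists_notMem_finset (N₁ ∪ N₂)
    exact ⟨i, hi, hi'⟩
  -- the point
  let p : ℕ → Bool × Bool := fun m =>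
    if β m % 3 = r then u m
    else (decide (m / 2 ∈ Ai i), if m % 2 = 0 then false else decide (m / 2 ∉ Ai i))
  have hpG : ∀ n, p ∈ W n := by
    apply hβ
    intro N
    refine ⟨3 * N + r, by omega, fun m hm => ?_⟩
    simp only [p]
    rw [if_pos (by rw [hm]; omega)]
  have hy1 : ∀ a, β (2 * a) % 3 ≠ r → p (2 * a) = (decide (a ∈ Ai i), false) := by
    intro a ha
    simp only [p]
    rw [if_neg ha, if_pos (by omega), show 2 * a / 2 = a by omega]
  have hy2 : ∀ a, β (2 * a + 1) % 3 ≠ r →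
      p (2 * a + 1) = (decide (a ∈ Ai i), decide (a ∉ Ai i)) := by
    intro a ha
    simp only [p]
    rw [if_neg ha, if_neg (by omega), show (2 * a + 1) / 2 = a by omega]
  have hAt : As i true = Ai i := rfl
  have hAf : As i false = (Ai i)ᶜ := rfl
  -- what the ultrafilters say about `p`
  have hQ : ∀ U₁ U₂ : Ultrafilter ℕ, (U₁ : Filter ℕ) ≤ g₁ → (U₂ : Filter ℕ) ≤ g₂ →
      ((Pos U₁ U₂ (fun n => (p n).1) ∧ Pos U₁ U₂ (fun n => (p n).2)) ↔
        (Ai i ∈ U₁ ∧ Ai i ∉ U₂)) := by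
    intro U₁ U₂ hU₁ hU₂
    have e1 := hU₁ hE₁
    have e2 := hU₂ hE₂
    have c1 : {a | (p (2 * a)).1 = true} ∈ U₁ ↔ Ai i ∈ U₁ := by
      constructor
      · intro h
        filter_upwards [h, e1] with a ha ha'
        rw [hy1 a ha'] at ha
        simpa using ha
      · intro h
        filter_upwards [h, e1] with a ha ha'
        rw [hy1 a ha']
        simpa using ha
    have c2 : {a | (p (2 * a + 1)).1 = true} ∈ U₂ ↔ Ai i ∈ U₂ := by
      constructor
      · intro h
        filter_upwards [h, e2] with a ha ha'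
        rw [hy2 a ha'] at ha
        simpa using ha
      · intro h
        filter_upwards [h, e2] with a ha ha'
        rw [hy2 a ha']
        simpa using ha
    have c3 : {a | (p (2 * a)).2 = true} ∉ U₁ := by
      intro h
      have : (∅ : Set ℕ) ∈ U₁ := by
        filter_upwards [h, e1] with a ha ha'
        rw [hy1 a ha'] at ha
        simp at ha
      exact Filter.empty_notMem (U₁ : Filter ℕ) this
    have c4 : {a | (p (2 * a + 1)).2 = true} ∈ U₂ ↔ Ai i ∉ U₂ := by
      rw [← Ultrafilter.compl_mem_iff_notMem]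
      constructor
      · intro h
        filter_upwards [h, e2] with a ha ha'
        rw [hy2 a ha'] at ha
        simpa using ha
      · intro h
        filter_upwards [h, e2] with a ha ha'
        rw [hy2 a ha']
        simpa using ha
    unfold Pos
    rw [show ({a | (fun n => (p n).1) (2 * a) = true} ∈ (U₁ : Filter ℕ)) ↔ _ from c1,
      show ({a | (fun n => (p n).1) (2 * a + 1) = true} ∈ (U₂ : Filter ℕ)) ↔ _ from c2,
      show ({a | (fun n => (p n).2) (2 * a + 1) = true} ∈ (U₂ : Filter ℕ)) ↔ _ from c4]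
    have c3' : ¬ ({a | (fun n => (p n).2) (2 * a) = true} ∈ (U₁ : Filter ℕ)) := c3
    tauto
  have hiD₁ : i ∉ D ∪ (N₁ : Set R) := by
    rintro (h | h)
    · exact hiD h
    · exact hiN (Finset.mem_union_left _ h)
  have hiD₂ : i ∉ D ∪ (N₂ : Set R) := by
    rintro (h | h)
    · exact hiD h
    · exact hiN (Finset.mem_union_right _ h)
  obtain ⟨f2a, hf2a, N₃, hI2a, hd2⟩ := (hI₂.add_one hiD₂ false).decide
    {a | k p (2 * a + 1) = true}
  have key2 : ∀ U₂ : Ultrafilter ℕ, (U₂ : Filter ℕ) ≤ f2a → Ai i ∉ U₂ := by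
    intro U₂ hU h
    have h1 : (Ai i)ᶜ ∈ (U₂ : Filter ℕ) := hU (hf2a (Filter.mem_inf_of_right
      (Filter.mem_principal_self _)))
    have h2 := Filter.inter_mem h h1
    rw [inter_compl_self] at h2
    exact Filter.empty_notMem (U₂ : Filter ℕ) h2
  rcases hd2 with hx2 | hx2
  · -- case 1
    refine ⟨g₁ ⊓ Filter.principal (As i false), inf_le_left.trans hg₁, f2a,
      hf2a.trans (inf_le_left.trans hg₂), N₁ ∪ N₂ ∪ {i} ∪ N₃,
      (hI₁.add_one hiD₁ false).mono ?_, hI2a.mono ?_, p, hpG, ?_⟩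
    · intro x hx
      simp only [mem_union, Finset.coe_union, Finset.coe_singleton] at hx ⊢
      tauto
    · intro x hx
      simp only [mem_union, Finset.coe_union, Finset.coe_singleton] at hx ⊢
      tauto
    · intro U₁ U₂ hU₁ hU₂
      rw [hQ U₁ U₂ (hU₁.trans inf_le_left) (hU₂.trans (hf2a.trans inf_le_left))]
      have h1 : (Ai i)ᶜ ∈ (U₁ : Filter ℕ) := hU₁ (Filter.mem_inf_of_right
        (Filter.mem_principal_self _))
      have h2 : Ai i ∉ U₁ := by
        intro h
        have h2 := Filter.inter_mem h h1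
        rw [inter_compl_self] at h2
        exact Filter.empty_notMem (U₁ : Filter ℕ) h2
      have h3 : Pos U₁ U₂ (k p) := Or.inr (hU₂ hx2)
      tauto
  · obtain ⟨f1a, hf1a, N₄, hI1a, hd1⟩ := (hI₁.add_one hiD₁ true).decide
      {a | k p (2 * a) = true}
    have key1 : ∀ U₁ : Ultrafilter ℕ, (U₁ : Filter ℕ) ≤ f1a → Ai i ∈ U₁ := fun U₁ hU =>
      hU (hf1a (Filter.mem_inf_of_right (Filter.mem_principal_self _)))
    rcases hd1 with hx1 | hx1
    · -- case 2b
      refine ⟨f1a, hf1a.trans (inf_le_left.trans hg₁), g₂ ⊓ Filter.principal (As i true),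
        inf_le_left.trans hg₂, N₁ ∪ N₂ ∪ {i} ∪ N₄, hI1a.mono ?_,
        (hI₂.add_one hiD₂ true).mono ?_, p, hpG, ?_⟩
      · intro x hx
        simp only [mem_union, Finset.coe_union, Finset.coe_singleton] at hx ⊢
        tauto
      · intro x hx
        simp only [mem_union, Finset.coe_union, Finset.coe_singleton] at hx ⊢
        tauto
      · intro U₁ U₂ hU₁ hU₂
        rw [hQ U₁ U₂ (hU₁.trans (hf1a.trans inf_le_left)) (hU₂.trans inf_le_left)]
        have h1 : Ai i ∈ U₂ := hU₂ (Filter.mem_inf_of_right (Filter.mem_principal_self _))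
        have h3 : Pos U₁ U₂ (k p) := Or.inl (hU₁ hx1)
        tauto
    · -- case 2a
      refine ⟨f1a, hf1a.trans (inf_le_left.trans hg₁), f2a,
        hf2a.trans (inf_le_left.trans hg₂), N₁ ∪ N₂ ∪ {i} ∪ N₃ ∪ N₄, hI1a.mono ?_,
        hI2a.mono ?_, p, hpG, ?_⟩
      · intro x hx
        simp only [mem_union, Finset.coe_union, Finset.coe_singleton] at hx ⊢
        tauto
      · intro x hx
        simp only [mem_union, Finset.coe_union, Finset.coe_singleton] at hx ⊢
        tauto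
      · intro U₁ U₂ hU₁ hU₂
        rw [hQ U₁ U₂ (hU₁.trans (hf1a.trans inf_le_left)) (hU₂.trans (hf2a.trans inf_le_left))]
        have h1 := key1 U₁ hU₁
        have h2 := key2 U₂ hU₂
        have h3 : ¬ Pos U₁ U₂ (k p) := by
          rintro (h | h)
          · have h4 := Filter.inter_mem h (hU₁ hx1)
            rw [inter_compl_self] at h4
            exact Filter.empty_notMem (U₁ : Filter ℕ) h4
          · have h4 := Filter.inter_mem h (hU₂ hx2)
            rw [inter_compl_self] at h4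
            exact Filter.empty_notMem (U₂ : Filter ℕ) h4
        tauto

/-! ### the recursion -/

/-- the index set: a well order of type continuum, with small initial segments -/
abbrev I : Type := (#R).ord.ToType

lemma mk_Iio_I (ξ : I) : #(Iio ξ) < #R := by
  have := Cardinal.mk_Iio_lt ξ (by simp)
  rwa [Cardinal.mk_ord_toType] at this

lemma aleph0_lt_R : ℵ₀ < #R := by
  rw [← Cardinal.power_def, Cardinal.mk_bool, Cardinal.mk_nat]
  exact Cardinal.cantor _

instance : Nonempty I := by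
  rw [← Cardinal.mk_ne_zero_iff, Cardinal.mk_ord_toType]
  exact (Cardinal.aleph0_pos.trans aleph0_lt_R).ne'

/-- the state at a stage: two filters and the newly used indices -/
abbrev St : Type := Filter ℕ × Filter ℕ × Finset R

section recursion

variable (W : I → ℕ → Set (ℕ → Bool × Bool)) (hW : ∀ ξ n, IsOpen (W ξ n))
  (k : I → (ℕ → Bool × Bool) → (ℕ → Bool))

def L1 (ξ : I) (F : (η : I) → η < ξ → St) : Filter ℕ :=
  Filter.cofinite ⊓ ⨅ η : Iio ξ, (F η.1 η.2).1

def L2 (ξ : I) (F : (η : I) → η < ξ → St) : Filter ℕ :=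
  Filter.cofinite ⊓ ⨅ η : Iio ξ, (F η.1 η.2).2.1

def LD (ξ : I) (F : (η : I) → η < ξ → St) : Set R := ⋃ η : Iio ξ, ((F η.1 η.2).2.2 : Set R)

lemma LD_infinite (ξ : I) (F : (η : I) → η < ξ → St) : (LD ξ F)ᶜ.Infinite := by
  intro hfin
  have h1 : #(LD ξ F) < #R := by
    unfold LD
    refine (Cardinal.mk_iUnion_le_sum_mk).trans_lt ?_
    refine (Cardinal.sum_le_sum _ (fun _ => ℵ₀) (fun η => ?_)).trans_lt ?_
    · exact (Cardinal.lt_aleph0_iff_finite.2 (Finset.finite_toSet _)).le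
    · rw [Cardinal.sum_const, Cardinal.lift_id, Cardinal.lift_id]
      exact Cardinal.mul_lt_of_lt aleph0_lt_R.le (mk_Iio_I ξ) aleph0_lt_R
  have h2 : #((LD ξ F)ᶜ : Set R) < #R :=
    (Cardinal.lt_aleph0_iff_finite.2 hfin).trans aleph0_lt_R
  have h3 := Cardinal.mk_sum_compl (LD ξ F)
  have h4 := Cardinal.add_lt_of_lt aleph0_lt_R.le h1 h2
  rw [h3] at h4
  exact lt_irrefl _ h4

/-- the hypothesis under which the step applies -/
def Hyp (ξ : I) (F : (η : I) → η < ξ → St) : Prop :=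
  Ind (L1 ξ F) (LD ξ F) ∧ Ind (L2 ξ F) (LD ξ F) ∧ (∀ n, IsOpen (W ξ n)) ∧ ∀ n, Dense (W ξ n)

lemma step' (ξ : I) (F : (η : I) → η < ξ → St) (h : Hyp W ξ F) :
    ∃ t : St, t.1 ≤ L1 ξ F ∧ t.2.1 ≤ L2 ξ F ∧ Ind t.1 (LD ξ F ∪ t.2.2) ∧
      Ind t.2.1 (LD ξ F ∪ t.2.2) ∧ Kill {p | ∀ n, p ∈ W ξ n} (k ξ) t.1 t.2.1 := by
  obtain ⟨f₁', h1, f₂', h2, N, h3, h4, h5⟩ :=
    step h.1 h.2.1 (LD_infinite ξ F) (W ξ) h.2.2.1 h.2.2.2 (k ξ)
  exact ⟨(f₁', f₂', N), h1, h2, h3, h4, h5⟩

open Classical in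
noncomputable def G (ξ : I) (F : (η : I) → η < ξ → St) : St :=
  if h : Hyp W ξ F then Classical.choose (step' W k ξ F h) else (L1 ξ F, L2 ξ F, ∅)

noncomputable def st : I → St := (wellFounded_lt (α := I)).fix (G W k)

lemma st_eq (ξ : I) : st W k ξ = G W k ξ (fun η _ => st W k η) :=
  (wellFounded_lt (α := I)).fix_eq (G W k) ξ

lemma st_le (ξ : I) : (st W k ξ).1 ≤ L1 ξ (fun η _ => st W k η) ∧
    (st W k ξ).2.1 ≤ L2 ξ (fun η _ => st W k η) := by
  rw [st_eq]
  unfold G
  split_ifs with h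
  · have := Classical.choose_spec (step' W k ξ _ h)
    exact ⟨this.1, this.2.1⟩
  · exact ⟨le_rfl, le_rfl⟩

lemma st_mono {η ξ : I} (h : η < ξ) : (st W k ξ).1 ≤ (st W k η).1 ∧
    (st W k ξ).2.1 ≤ (st W k η).2.1 := by
  obtain ⟨h1, h2⟩ := st_le W k ξ
  refine ⟨h1.trans (inf_le_right.trans ?_), h2.trans (inf_le_right.trans ?_)⟩
  · exact iInf_le (fun η : Iio ξ => (st W k η.1).1) ⟨η, h⟩
  · exact iInf_le (fun η : Iio ξ => (st W k η.1).2.1) ⟨η, h⟩

lemma st_anti {η ξ : I} (h : η ≤ ξ) : (st W k ξ).1 ≤ (st W k η).1 ∧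
    (st W k ξ).2.1 ≤ (st W k η).2.1 := by
  rcases h.eq_or_lt with rfl | h
  · exact ⟨le_rfl, le_rfl⟩
  · exact st_mono W k h

/-- all indices used up to stage `ξ` -/
def used (ξ : I) : Set R := ⋃ η : Iic ξ, ((st W k η.1).2.2 : Set R)

lemma ind_lim (ξ : I) (ih : ∀ η < ξ, Ind (st W k η).1 (used W k η) ∧
    Ind (st W k η).2.1 (used W k η)) :
    Ind (L1 ξ (fun η _ => st W k η)) (LD ξ (fun η _ => st W k η)) ∧
    Ind (L2 ξ (fun η _ => st W k η)) (LD ξ (fun η _ => st W k η)) := by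
  have hsub : ∀ η < ξ, used W k η ⊆ LD ξ (fun η _ => st W k η) := by
    intro η hη x hx
    unfold used at hx
    unfold LD
    rw [mem_iUnion] at hx ⊢
    obtain ⟨ζ, hζ⟩ := hx
    exact ⟨⟨ζ.1, ζ.2.trans_lt hη⟩, hζ⟩
  rcases isEmpty_or_nonempty (Iio ξ) with he | hne
  · constructor
    · intro s ε _ B hB
      unfold L1 at hB
      rw [iInf_of_empty, inf_top_eq] at hB
      exact independent s ε B hB
    · intro s ε _ B hB
      unfold L2 at hB
      rw [iInf_of_empty, inf_top_eq] at hB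
      exact independent s ε B hB
  · constructor
    · intro s ε hs B hB
      unfold L1 at hB
      have hd : Directed (· ≥ ·) (fun η : Iio ξ => (st W k η.1).1) := by
        intro a b
        rcases le_total a.1 b.1 with h | h
        · exact ⟨b, (st_anti W k h).1, le_rfl⟩
        · exact ⟨a, le_rfl, (st_anti W k h).1⟩
      have hcof : ⨅ η : Iio ξ, (st W k η.1).1 ≤ Filter.cofinite := by
        obtain ⟨η⟩ := hne
        exact (iInf_le _ η).trans ((st_le W k η.1).1.trans inf_le_left)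
      rw [inf_eq_right.2 hcof, Filter.mem_iInf_of_directed hd] at hB
      obtain ⟨η, hη⟩ := hB
      exact (ih η.1 η.2).1 s ε (fun i hi h => hs i hi (hsub η.1 η.2 h)) B hη
    · intro s ε hs B hB
      unfold L2 at hB
      have hd : Directed (· ≥ ·) (fun η : Iio ξ => (st W k η.1).2.1) := by
        intro a b
        rcases le_total a.1 b.1 with h | h
        · exact ⟨b, (st_anti W k h).2, le_rfl⟩
        · exact ⟨a, le_rfl, (st_anti W k h).2⟩
      have hcof : ⨅ η : Iio ξ, (st W k η.1).2.1 ≤ Filter.cofinite := by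
        obtain ⟨η⟩ := hne
        exact (iInf_le _ η).trans ((st_le W k η.1).2.trans inf_le_left)
      rw [inf_eq_right.2 hcof, Filter.mem_iInf_of_directed hd] at hB
      obtain ⟨η, hη⟩ := hB
      exact (ih η.1 η.2).2 s ε (fun i hi h => hs i hi (hsub η.1 η.2 h)) B hη

lemma used_eq (ξ : I) : used W k ξ = LD ξ (fun η _ => st W k η) ∪ ((st W k ξ).2.2 : Set R) := by
  unfold used LD
  ext x
  simp only [mem_iUnion, mem_union]
  constructor
  · rintro ⟨⟨η, hη⟩, hx⟩
    rcases (show η ≤ ξ from hη).eq_or_lt with rfl | h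
    · exact Or.inr hx
    · exact Or.inl ⟨⟨η, h⟩, hx⟩
  · rintro (⟨⟨η, hη⟩, hx⟩ | hx)
    · exact ⟨⟨η, (show η < ξ from hη).le⟩, hx⟩
    · exact ⟨⟨ξ, mem_Iic.2 le_rfl⟩, hx⟩

lemma st_ind (ξ : I) : Ind (st W k ξ).1 (used W k ξ) ∧ Ind (st W k ξ).2.1 (used W k ξ) := by
  induction ξ using (wellFounded_lt (α := I)).induction with
  | _ ξ ih =>
    have hl := ind_lim W k ξ ih
    rw [used_eq]
    by_cases h : Hyp W ξ (fun η _ => st W k η)
    · have hs := Classical.choose_spec (step' W k ξ _ h)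
      have he : st W k ξ = Classical.choose (step' W k ξ _ h) := by
        rw [st_eq]
        unfold G
        rw [dif_pos h]
      rw [← he] at hs
      exact ⟨hs.2.2.1, hs.2.2.2.1⟩
    · have he : st W k ξ = (L1 ξ (fun η _ => st W k η), L2 ξ (fun η _ => st W k η), ∅) := by
        rw [st_eq]
        unfold G
        rw [dif_neg h]
      rw [he]
      exact ⟨hl.1.mono subset_union_left, hl.2.mono subset_union_left⟩

include hW in
lemma st_kill (ξ : I) (hd : ∀ n, Dense (W ξ n)) :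
    Kill {p | ∀ n, p ∈ W ξ n} (k ξ) (st W k ξ).1 (st W k ξ).2.1 := by
  have hl := ind_lim W k ξ (fun η _ => st_ind W k η)
  have h : Hyp W ξ (fun η _ => st W k η) := ⟨hl.1, hl.2, hW ξ, hd⟩
  have hs := Classical.choose_spec (step' W k ξ _ h)
  have he : st W k ξ = Classical.choose (step' W k ξ _ h) := by
    rw [st_eq]
    unfold G
    rw [dif_pos h]
  rw [← he] at hs
  exact hs.2.2.2.2

include hW in
/-- Two ultrafilters killing all the given maps. -/
lemma exists_ultra : ∃ U₁ U₂ : Ultrafilter ℕ, (U₁ : Filter ℕ) ≤ Filter.cofinite ∧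
    (U₂ : Filter ℕ) ≤ Filter.cofinite ∧ ∀ ξ, (∀ n, Dense (W ξ n)) →
      ∃ p, (∀ n, p ∈ W ξ n) ∧
        ¬ ((Pos U₁ U₂ (fun n => (p n).1) ∧ Pos U₁ U₂ (fun n => (p n).2)) ↔ Pos U₁ U₂ (k ξ p)) := by
  have hd1 : Directed (· ≥ ·) (fun ξ : I => (st W k ξ).1) := by
    intro a b
    rcases le_total a b with h | h
    · exact ⟨b, (st_anti W k h).1, le_rfl⟩
    · exact ⟨a, le_rfl, (st_anti W k h).1⟩
  have hd2 : Directed (· ≥ ·) (fun ξ : I => (st W k ξ).2.1) := by
    intro a b
    rcases le_total a b with h | h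
    · exact ⟨b, (st_anti W k h).2, le_rfl⟩
    · exact ⟨a, le_rfl, (st_anti W k h).2⟩
  have hn1 := Filter.iInf_neBot_of_directed' hd1 (fun ξ => (st_ind W k ξ).1.neBot)
  have hn2 := Filter.iInf_neBot_of_directed' hd2 (fun ξ => (st_ind W k ξ).2.neBot)
  obtain ⟨ξ₀⟩ := (inferInstance : Nonempty I)
  refine ⟨Ultrafilter.of (⨅ ξ, (st W k ξ).1), Ultrafilter.of (⨅ ξ, (st W k ξ).2.1), ?_, ?_, ?_⟩
  · exact (Ultrafilter.of_le _).trans ((iInf_le _ ξ₀).trans ((st_le W k ξ₀).1.trans inf_le_left))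
  · exact (Ultrafilter.of_le _).trans ((iInf_le _ ξ₀).trans ((st_le W k ξ₀).2.trans inf_le_left))
  · intro ξ hξ
    obtain ⟨p, hp, h⟩ := st_kill W hW k ξ hξ
    exact ⟨p, hp, h _ _ ((Ultrafilter.of_le _).trans (iInf_le _ ξ))
      ((Ultrafilter.of_le _).trans (iInf_le _ ξ))⟩

end recursion

/-! ### codes for continuous maps -/

section codes

variable (V : ℕ → Set (ℕ → Bool × Bool))

/-- reading a code -/
def rd (z : R) (n : ℕ) (b : Bool) (j : ℕ) : Prop := z (Encodable.encode (n, b, j)) = true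

/-- every predicate has a code -/
lemma exists_code (P : ℕ → Bool → ℕ → Prop) : ∃ z : R, ∀ n b j, rd z n b j ↔ P n b j := by
  classical
  refine ⟨fun m => decide (∃ n b j, Encodable.encode ((n, b, j) : ℕ × Bool × ℕ) = m ∧ P n b j), ?_⟩
  intro n b j
  unfold rd
  rw [decide_eq_true_iff]
  constructor
  · rintro ⟨n', b', j', h1, h2⟩
    have h3 := Encodable.encode_injective h1
    rw [Prod.mk.injEq, Prod.mk.injEq] at h3
    obtain ⟨rfl, rfl, rfl⟩ := h3
    exact h2
  · intro h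
    exact ⟨n, b, j, rfl, h⟩

/-- the points at which the coded map has an `n`-th coordinate -/
def Wc (z : R) (n : ℕ) : Set (ℕ → Bool × Bool) := {p | ∃ b j, rd z n b j ∧ p ∈ V j}

open Classical in
/-- the coded map -/
noncomputable def kc (z : R) (p : ℕ → Bool × Bool) (n : ℕ) : Bool :=
  decide (∃ j, rd z n true j ∧ p ∈ V j)

lemma Wc_open (hV : ∀ j, IsOpen (V j)) (z : R) (n : ℕ) : IsOpen (Wc V z n) := by
  have : Wc V z n = ⋃ (b : Bool) (j : ℕ) (_ : rd z n b j), V j := by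
    ext p
    simp [Wc]
  rw [this]
  exact isOpen_iUnion (fun b => isOpen_iUnion (fun j => isOpen_iUnion (fun _ => hV j)))

end codes

/-! ### the coideal of the intersection of two ultrafilters -/

/-- the filter generated by two ultrafilters on the even and on the odd numbers -/
noncomputable def FF (U₁ U₂ : Ultrafilter ℕ) : Filter ℕ :=
  Filter.map (fun a => 2 * a) U₁ ⊔ Filter.map (fun a => 2 * a + 1) U₂

lemma mem_FF (U₁ U₂ : Ultrafilter ℕ) (B : Set ℕ) :
    B ∈ FF U₁ U₂ ↔ {a | 2 * a ∈ B} ∈ U₁ ∧ {a | 2 * a + 1 ∈ B} ∈ U₂ := by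
  unfold FF
  rw [Filter.mem_sup, Filter.mem_map, Filter.mem_map]
  rfl

lemma mem_copy (U₁ U₂ : Ultrafilter ℕ) (x : ℕ → Bool) :
    x ∈ copy (coideal (FF U₁ U₂)) ↔ Pos U₁ U₂ x := by
  unfold copy coideal Pos
  rw [Set.mem_ofPred_eq, Set.mem_ofPred_eq]
  constructor
  · intro h
    by_contra hcon
    push Not at hcon
    obtain ⟨h1, h2⟩ := hcon
    have h1' : {a | x (2 * a) = true}ᶜ ∈ U₁ := Ultrafilter.compl_mem_iff_notMem.2 h1
    have h2' : {a | x (2 * a + 1) = true}ᶜ ∈ U₂ := Ultrafilter.compl_mem_iff_notMem.2 h2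
    obtain ⟨n, hn1, hn2⟩ := h {n | x n = true}ᶜ ((mem_FF _ _ _).2 ⟨h1', h2'⟩)
    exact hn2 hn1
  · rintro (h | h) B hB
    · rw [mem_FF] at hB
      obtain ⟨a, ha1, ha2⟩ := Ultrafilter.nonempty_of_mem (Filter.inter_mem h hB.1)
      exact ⟨2 * a, ha1, ha2⟩
    · rw [mem_FF] at hB
      obtain ⟨a, ha1, ha2⟩ := Ultrafilter.nonempty_of_mem (Filter.inter_mem h hB.2)
      exact ⟨2 * a + 1, ha1, ha2⟩

lemma FF_le (U₁ U₂ : Ultrafilter ℕ) (h1 : (U₁ : Filter ℕ) ≤ Filter.cofinite)
    (h2 : (U₂ : Filter ℕ) ≤ Filter.cofinite) : FF U₁ U₂ ≤ Filter.cofinite := by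
  unfold FF
  refine sup_le ?_ ?_
  · exact (Filter.map_mono h1).trans
      (Function.Injective.tendsto_cofinite (fun a b h => by simpa using h))
  · exact (Filter.map_mono h2).trans
      (Function.Injective.tendsto_cofinite (fun a b h => by simpa using h))

/-- the filter is not meager -/
lemma FF_nonmeager (U₁ U₂ : Ultrafilter ℕ) : ¬ IsMeagre (copy {A | A ∈ FF U₁ U₂}) := by
  classical
  intro hM
  have hres : (copy {A | A ∈ FF U₁ U₂})ᶜ ∈ residual (ℕ → Bool) := hM
  obtain ⟨t, ht, htG, htd⟩ := mem_residual.1 hres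
  obtain ⟨O, hO, rfl⟩ := isGδ_iff_eq_iInter_nat.1 htG
  obtain ⟨β, u, hβ⟩ := block O hO (fun n => htd.mono (iInter_subset O n))
  -- a residue class whose complement is in both ultrafilters
  have hex : ∀ (g : ℕ → ℕ) (U : Ultrafilter ℕ), ∃ r₀, ∀ r, r ≠ r₀ →
      {a | β (g a) % 3 ≠ r} ∈ U := by
    intro g U
    by_cases h : ∃ r₀, {a | β (g a) % 3 = r₀} ∈ U
    · obtain ⟨r₀, h⟩ := h
      refine ⟨r₀, fun r hr => ?_⟩
      filter_upwards [h] with a ha
      rw [ha]
      exact hr.symm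
    · push Not at h
      refine ⟨0, fun r _ => ?_⟩
      have := Ultrafilter.compl_mem_iff_notMem.2 (h r)
      exact this
  obtain ⟨r₁, hr₁⟩ := hex (fun a => 2 * a) U₁
  obtain ⟨r₂, hr₂⟩ := hex (fun a => 2 * a + 1) U₂
  obtain ⟨r, hr3, hrr₁, hrr₂⟩ : ∃ r < 3, r ≠ r₁ ∧ r ≠ r₂ := by
    by_cases a0 : 0 ≠ r₁ ∧ 0 ≠ r₂
    · exact ⟨0, by omega, a0⟩
    · by_cases a1 : 1 ≠ r₁ ∧ 1 ≠ r₂
      · exact ⟨1, by omega, a1⟩
      · exact ⟨2, by omega, by omega, by omega⟩
  let q : ℕ → Bool := fun m => if β m % 3 = r then u m else true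
  have hq : ∀ n, q ∈ O n := by
    apply hβ
    intro N
    refine ⟨3 * N + r, by omega, fun m hm => ?_⟩
    simp only [q]
    rw [if_pos (by rw [hm]; omega)]
  have hq' := ht (mem_iInter.2 hq)
  apply hq'
  unfold copy
  rw [Set.mem_ofPred_eq, Set.mem_ofPred_eq, mem_FF]
  constructor
  · filter_upwards [hr₁ r hrr₁] with a ha
    show q (2 * a) = true
    simp only [q]
    rw [if_neg ha]
  · filter_upwards [hr₂ r hrr₂] with a ha
    show q (2 * a + 1) = true
    simp only [q]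
    rw [if_neg ha]

/-- the pairs of positive sets are dense -/
lemma pos_dense (U₁ U₂ : Ultrafilter ℕ) (h1 : (U₁ : Filter ℕ) ≤ Filter.cofinite) :
    Dense {p : ℕ → Bool × Bool | Pos U₁ U₂ (fun n => (p n).1) ∧ Pos U₁ U₂ (fun n => (p n).2)} := by
  classical
  rw [dense_iff_inter_open]
  rintro O hO ⟨q, hq⟩
  obtain ⟨n, hn⟩ := exists_cyl hO hq
  refine ⟨fun m => if m < n then q m else (true, true), hn _ (fun m hm => if_pos hm), ?_, ?_⟩
  · left
    apply h1
    rw [Filter.mem_cofinite]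
    refine (Set.finite_Iio n).subset ?_
    intro a ha
    by_contra hcon
    apply ha
    show (if 2 * a < n then q (2 * a) else (true, true)).1 = true
    rw [if_neg (by rw [mem_Iio] at hcon; omega)]
  · left
    apply h1
    rw [Filter.mem_cofinite]
    refine (Set.finite_Iio n).subset ?_
    intro a ha
    by_contra hcon
    apply ha
    show (if 2 * a < n then q (2 * a) else (true, true)).2 = true
    rw [if_neg (by rw [mem_Iio] at hcon; omega)]

/-- **Theorem (ZFC).** There is a non-meager filter on `ω` whose coideal is not homeomorphic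
to its square. -/
theorem result : ∃ F : Filter ℕ, F.NeBot ∧ F ≤ Filter.cofinite ∧
    ¬ IsMeagre (copy {A | A ∈ F}) ∧
    IsEmpty (copy (coideal F) ≃ₜ copy (coideal F) × copy (coideal F)) := by
  classical
  obtain ⟨b, hbc, -, hb⟩ := TopologicalSpace.exists_countable_basis (ℕ → Bool × Bool)
  have hbne : b.Nonempty := by
    by_contra h
    rw [not_nonempty_iff_eq_empty] at h
    obtain ⟨v, hv, -⟩ := hb.exists_subset_of_mem_open (mem_univ (fun _ => (true, true))) isOpen_univ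
    rw [h] at hv
    exact hv
  obtain ⟨V, rfl⟩ := hbc.exists_eq_range hbne
  have hVo : ∀ j, IsOpen (V j) := fun j => hb.isOpen ⟨j, rfl⟩
  -- enumerate the codes
  obtain ⟨e⟩ : Nonempty (I ≃ R) := Cardinal.eq.1 (Cardinal.mk_ord_toType _)
  obtain ⟨U₁, U₂, hU₁, hU₂, hkill⟩ := exists_ultra (fun ξ n => Wc V (e ξ) n)
    (fun ξ n => Wc_open V hVo (e ξ) n) (fun ξ p => kc V (e ξ) p)
  have hF : (FF U₁ U₂).NeBot := by
    unfold FF
    exact Filter.NeBot.mono (Filter.map_neBot (f := (U₁ : Filter ℕ))) le_sup_left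
  refine ⟨FF U₁ U₂, hF, FF_le U₁ U₂ hU₁ hU₂, FF_nonmeager U₁ U₂, ⟨fun φ => ?_⟩⟩
  set A : Set (ℕ → Bool × Bool) :=
    {p | Pos U₁ U₂ (fun n => (p n).1) ∧ Pos U₁ U₂ (fun n => (p n).2)} with hA
  have hAd : Dense A := pos_dense U₁ U₂ hU₁
  -- the inverse homeomorphism as a map on `A`
  let ι : A → copy (coideal (FF U₁ U₂)) × copy (coideal (FF U₁ U₂)) := fun p =>
    (⟨fun n => (p.1 n).1, (mem_copy _ _ _).2 p.2.1⟩, ⟨fun n => (p.1 n).2, (mem_copy _ _ _).2 p.2.2⟩)
  have hι : Continuous ι := by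
    refine Continuous.prodMk ?_ ?_
    · refine Continuous.subtype_mk ?_ _
      exact continuous_pi (fun n => continuous_fst.comp ((continuous_apply n).comp
        continuous_subtype_val))
    · refine Continuous.subtype_mk ?_ _
      exact continuous_pi (fun n => continuous_snd.comp ((continuous_apply n).comp
        continuous_subtype_val))
  let ψ : A → ℕ → Bool := fun p => (φ.symm (ι p)).1
  have hψ : Continuous ψ := continuous_subtype_val.comp (φ.symm.continuous.comp hι)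
  obtain ⟨z, hz⟩ := exists_code (fun n c j => ∀ (p : A), p.1 ∈ V j → ψ p n = c)
  -- (1) the coded map is defined on `A`
  have h1 : ∀ (p : A) (n : ℕ), ∃ j, rd z n (ψ p n) j ∧ p.1 ∈ V j := by
    intro p n
    have ho : IsOpen {p' : A | ψ p' n = ψ p n} :=
      (isOpen_discrete ({ψ p n} : Set Bool)).preimage
        ((continuous_apply (A := fun _ => Bool) n).comp hψ)
    obtain ⟨O, hO, hO'⟩ := isOpen_induced_iff.1 ho
    have hpO : p.1 ∈ O := by
      have : p ∈ {p' : A | ψ p' n = ψ p n} := rfl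
      rw [← hO'] at this
      exact this
    obtain ⟨_, ⟨j, rfl⟩, hj1, hj2⟩ := hb.exists_subset_of_mem_open hpO hO
    refine ⟨j, (hz _ _ _).2 ?_, hj1⟩
    intro p' hp'
    have : p' ∈ Subtype.val ⁻¹' O := hj2 hp'
    rw [hO'] at this
    exact this
  -- (2) values agree near a point
  have h2 : ∀ (p : ℕ → Bool × Bool) (n : ℕ) (c : Bool) (j : ℕ), rd z n c j → p ∈ V j →
      kc V z p n = c := by
    intro p n c j hj hp
    unfold kc
    cases c with
    | true =>
      rw [decide_eq_true_iff]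
      exact ⟨j, hj, hp⟩
    | false =>
      rw [decide_eq_false_iff_not]
      rintro ⟨j', hj', hp'⟩
      obtain ⟨q, ⟨hq1, hq2⟩, hqA⟩ := hAd.inter_open_nonempty _ ((hVo j).inter (hVo j')) ⟨p, hp, hp'⟩
      have e1 := (hz _ _ _).1 hj ⟨q, hqA⟩ hq1
      have e2 := (hz _ _ _).1 hj' ⟨q, hqA⟩ hq2
      rw [e1] at e2
      cases e2
  have hdense : ∀ n, Dense (Wc V z n) := fun n => hAd.mono (fun p hp => by
    obtain ⟨j, hj1, hj2⟩ := h1 ⟨p, hp⟩ n
    exact ⟨_, j, hj1, hj2⟩)
  obtain ⟨ξ, hξ⟩ := e.surjective z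
  have hk := hkill ξ
  simp only [hξ] at hk
  obtain ⟨p, hpW, hp⟩ := hk hdense
  apply hp
  constructor
  · -- `p ∈ A`
    intro hpA
    have : kc V z p = ψ ⟨p, hpA⟩ := by
      funext n
      obtain ⟨j, hj1, hj2⟩ := h1 ⟨p, hpA⟩ n
      exact h2 p n _ j hj1 hj2
    rw [this]
    exact (mem_copy _ _ _).1 (φ.symm (ι ⟨p, hpA⟩)).2
  · intro hx
    let x : copy (coideal (FF U₁ U₂)) := ⟨kc V z p, (mem_copy _ _ _).2 hx⟩
    let mg : copy (coideal (FF U₁ U₂)) × copy (coideal (FF U₁ U₂)) → (ℕ → Bool × Bool) :=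
      fun y n => (y.1.1 n, y.2.1 n)
    have hmg : Continuous mg := continuous_pi (fun n => Continuous.prodMk
      ((continuous_apply n).comp (continuous_subtype_val.comp continuous_fst))
      ((continuous_apply n).comp (continuous_subtype_val.comp continuous_snd)))
    have hmgι : ∀ q : A, mg (ι q) = q.1 := fun q => rfl
    have hmgA : ∀ y, mg y ∈ A := fun y =>
      ⟨(mem_copy _ _ _).1 y.1.2, (mem_copy _ _ _).1 y.2.2⟩
    have hpe : p = mg (φ x) := by
      by_contra hne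
      obtain ⟨O₂, O₁, hO₂, hO₁, hpO₂, hxO₁, hdis⟩ := t2_separation hne
      have ho : IsOpen {x' | mg (φ x') ∈ O₁} := hO₁.preimage (hmg.comp φ.continuous)
      obtain ⟨N, hN, hN'⟩ := isOpen_induced_iff.1 ho
      have hxN : kc V z p ∈ N := by
        have : x ∈ {x' | mg (φ x') ∈ O₁} := hxO₁
        rw [← hN'] at this
        exact this
      obtain ⟨m, hm⟩ := exists_cyl hN hxN
      have hex : ∀ i, ∃ c j, rd z i c j ∧ p ∈ V j := fun i => hpW i
      choose c j hcj hpj using hex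
      have hopen : IsOpen (O₂ ∩ ⋂ i ∈ Finset.range m, V (j i)) :=
        hO₂.inter (isOpen_biInter_finset (fun i _ => hVo _))
      obtain ⟨q, ⟨hq1, hq2⟩, hqA⟩ := hAd.inter_open_nonempty _ hopen
        ⟨p, hpO₂, by simp only [mem_iInter]; exact fun i _ => hpj i⟩
      simp only [mem_iInter, Finset.mem_range] at hq2
      have h3 : ψ ⟨q, hqA⟩ ∈ N := by
        apply hm
        intro i hi
        rw [h2 p i (c i) (j i) (hcj i) (hpj i)]
        exact (hz _ _ _).1 (hcj i) ⟨q, hqA⟩ (hq2 i hi)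
      have h4 : φ.symm (ι ⟨q, hqA⟩) ∈ {x' | mg (φ x') ∈ O₁} := by
        rw [← hN']
        exact h3
      have h5 : mg (φ (φ.symm (ι ⟨q, hqA⟩))) ∈ O₁ := h4
      rw [Homeomorph.apply_symm_apply, hmgι] at h5
      exact Set.disjoint_left.1 hdis hq1 h5
    rw [hpe]
    exact hmgA _

end Pool.Agent.Results.MP_2ea626_lc.CoidealNotSquare
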